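import Pool.Agent.Lib.MP_ca83f8_co.Bow

set_option autoImplicit false

/-! The rainbow Erdős–Rothschild statement for dense linear `k`-graphs is false: it fails for
`k = 2` and the bowtie (two triangles sharing a vertex), for every number `r ≥ 2` of colours. -/

namespace Pool.Agent.Results.MP_ca83f8_co.RainbowBowtie

open Pool.Agent.Lib.MP_ca83f8_co.Bow

/-- all members of `H` have `k` elements -/
def Unif {n : ℕ} (k : ℕ) (H : Finset (Finset (Fin n))) : Prop := ∀ e ∈ H, e.card = k

/-- any two distinct edges share at most one vertex -/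
def Linear {n : ℕ} (F : Finset (Finset (Fin n))) : Prop :=
  ∀ e ∈ F, ∀ f ∈ F, e ≠ f → (e ∩ f).card ≤ 1

/-- `H` contains a copy of `F` -/
def HasCopy {m n : ℕ} (F : Finset (Finset (Fin m))) (H : Finset (Finset (Fin n))) : Prop :=
  ∃ φ : Fin m ↪ Fin n, ∀ e ∈ F, e.map φ ∈ H

open scoped Classical in
/-- the Turán number: the largest number of edges of an `F`-free `k`-graph on `n` vertices -/
noncomputable def turan {m : ℕ} (k n : ℕ) (F : Finset (Finset (Fin m))) : ℕ :=
  ((Finset.univ : Finset (Finset (Finset (Fin n)))).filter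
    (fun G => Unif k G ∧ ¬ HasCopy F G)).sup Finset.card

/-- the colouring `c` of the edges of `H` has a rainbow copy of `F` -/
def HasRainbow {m n r : ℕ} (F : Finset (Finset (Fin m))) (H : Finset (Finset (Fin n)))
    (c : {e // e ∈ H} → Fin r) : Prop :=
  ∃ (φ : Fin m ↪ Fin n) (h : ∀ e ∈ F, e.map φ ∈ H), ∀ (e f : Finset (Fin m)) (he : e ∈ F)
    (hf : f ∈ F), e ≠ f → c ⟨e.map φ, h e he⟩ ≠ c ⟨f.map φ, h f hf⟩

/-- the number of colourings of the edges of `H` with `r` colours without rainbow copy of `F` -/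
noncomputable def numCol {m n : ℕ} (r : ℕ) (F : Finset (Finset (Fin m)))
    (H : Finset (Finset (Fin n))) : ℕ :=
  Nat.card {c : {e // e ∈ H} → Fin r // ¬ HasRainbow F H c}

theorem numCol_eq {m n : ℕ} (r : ℕ) (F : Finset (Finset (Fin m))) (H : Finset (Finset (Fin n))) :
    numCol r F H = Nat.card {c : {x // x ∈ H} → Fin r //
            ¬ ∃ φ : Fin m ↪ Fin n, (∀ e ∈ F, e.map φ ∈ H) ∧
              ∀ e ∈ F, ∀ f ∈ F, ∀ x y : {x // x ∈ H},
                x.1 = e.map φ → y.1 = f.map φ → e ≠ f → c x ≠ c y} := by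
  unfold numCol
  refine Nat.card_congr (Equiv.subtypeEquivRight fun c => not_congr ?_)
  constructor
  · rintro ⟨φ, h, hr⟩
    refine ⟨φ, h, fun e he f hf x y hx hy hne => ?_⟩
    have := hr e f he hf hne
    have e1 : x = ⟨e.map φ, h e he⟩ := Subtype.ext hx
    have e2 : y = ⟨f.map φ, h f hf⟩ := Subtype.ext hy
    rw [e1, e2]; exact this
  · rintro ⟨φ, h, hr⟩
    exact ⟨φ, h, fun e f he hf hne => hr e he f hf _ _ rfl rfl hne⟩

/-- There is a linear graph `F` (with `k = 2`) on five vertices with `ex(n, F) ≥ n² / 8` for all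
`n ≥ 2` such that for every `r ≥ 2` and every even `n ≥ 10` some graph `H` on `n` vertices has
more than `r ^ ex(n, F)` edge colourings with `r` colours without rainbow copy of `F`. -/
theorem result : ∃ F : Finset (Finset (Fin 5)), Unif 2 F ∧ Linear F ∧
    (∀ n : ℕ, 2 ≤ n → (n : ℝ) ^ 2 / 8 ≤ turan 2 n F) ∧
    ∀ r n : ℕ, 2 ≤ r → 10 ≤ n → Even n →
      ∃ H : Finset (Finset (Fin n)), Unif 2 H ∧ r ^ turan 2 n F < numCol r F H := by
  classical
  have hex : ∀ n : ℕ, n / 2 * (n - n / 2) ≤ turan 2 n bowtie := by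
    intro n
    rw [← Bip_card n]
    refine Finset.le_sup (f := Finset.card) ?_
    simp only [Finset.mem_filter, Finset.mem_univ, true_and]
    exact ⟨Bip_card2 n, Bip_free n⟩
  refine ⟨bowtie, by unfold Unif; decide, by unfold Linear; decide, fun n hn => ?_, ?_⟩
  · have h2 : (n : ℝ) ^ 2 ≤ 8 * ((n / 2 * (n - n / 2) : ℕ) : ℝ) := by
      have : n ^ 2 ≤ 8 * (n / 2 * (n - n / 2)) := by
        rcases Nat.even_or_odd' n with ⟨j, rfl | rfl⟩
        · have e1 : 2 * j / 2 = j := by omega
          have e2 : 2 * j - j = j := by omega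
          rw [e1, e2]; nlinarith
        · have e1 : (2 * j + 1) / 2 = j := by omega
          have e2 : 2 * j + 1 - j = j + 1 := by omega
          have : 1 ≤ j := by omega
          rw [e1, e2]; nlinarith
      exact_mod_cast this
    have h3 : ((n / 2 * (n - n / 2) : ℕ) : ℝ) ≤ (turan 2 n bowtie : ℝ) := by
      exact_mod_cast hex n
    linarith
  · intro r n hr hn hev
    obtain ⟨m, hm⟩ := hev
    obtain rfl : n = 2 * m := by omega
    have hm5 : 5 ≤ m := by omega
    refine ⟨HH m hm5, HH_card2 m hm5, ?_⟩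
    rw [numCol_eq]
    refine lt_of_le_of_lt ?_ (count_lower m hm5 r hr)
    refine Nat.pow_le_pow_right (by omega) ?_
    refine Finset.sup_le fun G hG => ?_
    simp only [Finset.mem_filter, Finset.mem_univ, true_and] at hG
    have h1 := card_le G hG.1 (by omega) hG.2
    have e1 : (2 * m) ^ 2 / 4 = m ^ 2 := by
      have : (2 * m) ^ 2 = 4 * (m ^ 2) := by ring
      omega
    omega

end Pool.Agent.Results.MP_ca83f8_co.RainbowBowtie
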